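import Mathlib
import Pool.Agent.Q65.PMCc
import Pool.Agent.Q65.PMCd

/-! The constant `c₅` of Hausdorff approximation of plane continua by piecewise monotone
curves equals `1/2`. -/

set_option autoImplicit false

open Set Metric Filter Topology

namespace Pool.Agent.Results.MP_cc6bdf_an.PiecewiseMonotoneCurves

/-- `M_n`: the functions continuous on `[0,1]` with at most `n` intervals of monotonicity:
there are `0 = t_0 < t_1 < … < t_k = 1` with `k ≤ n` such that `φ` is monotone on each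
`[t_i, t_{i+1}]`. -/
def IsM (n : ℕ) (φ : ℝ → ℝ) : Prop :=
  ContinuousOn φ (Icc 0 1) ∧ ∃ k ≤ n, ∃ t : ℕ → ℝ, t 0 = 0 ∧ t k = 1 ∧
    ∀ i < k, t i < t (i + 1) ∧
      (MonotoneOn φ (Icc (t i) (t (i + 1))) ∨ AntitoneOn φ (Icc (t i) (t (i + 1))))

/-- the plane curve `{(φ(t), ψ(t)) : t ∈ [0,1]}` -/
def curve (φ ψ : ℝ → ℝ) : Set (ℝ × ℝ) := (fun t => (φ t, ψ t)) '' Icc (0:ℝ) 1

/-- `E(M_n²; F)`; the distance of `ℝ × ℝ` in Mathlib is the box (maximum) metric -/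
noncomputable def E1 (n : ℕ) (F : Set (ℝ × ℝ)) : ℝ :=
  sInf {r : ℝ | ∃ φ ψ : ℝ → ℝ, IsM n φ ∧ IsM n ψ ∧ r = hausdorffDist F (curve φ ψ)}

/-- `Z_D`: the nonempty compact connected subsets of `[a,b] × [a,b]` -/
def ZD (a b : ℝ) : Set (Set (ℝ × ℝ)) :=
  {F | F ⊆ Icc a b ×ˢ Icc a b ∧ IsCompact F ∧ IsConnected F}

/-- `E(M_n²; Z_D)` -/
noncomputable def E (n : ℕ) (a b : ℝ) : ℝ := sSup (E1 n '' ZD a b)

lemma bddBelow_set (n : ℕ) (F : Set (ℝ × ℝ)) :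
    BddBelow {r : ℝ | ∃ φ ψ : ℝ → ℝ, IsM n φ ∧ IsM n ψ ∧ r = hausdorffDist F (curve φ ψ)} := by
  refine ⟨0, ?_⟩
  rintro r ⟨φ, ψ, -, -, rfl⟩
  exact hausdorffDist_nonneg

lemma isM_const {n : ℕ} (hn : 1 ≤ n) (c : ℝ) : IsM n (fun _ => c) := by
  refine ⟨continuousOn_const, 1, hn, fun i => i, by simp, by simp, ?_⟩
  intro i _
  refine ⟨by push_cast; linarith, Or.inl ?_⟩
  intro x _ y _ _
  exact le_rfl

lemma curve_const (a : ℝ) : curve (fun _ => a) (fun _ => a) = {(a, a)} := by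
  unfold curve
  ext p
  simp only [mem_image, mem_Icc, mem_singleton_iff]
  constructor
  · rintro ⟨t, -, rfl⟩; rfl
  · rintro rfl; exact ⟨0, ⟨le_rfl, zero_le_one⟩, rfl⟩

lemma E1_le_width {n : ℕ} (hn : 1 ≤ n) {a b : ℝ} (hab : a < b) {F : Set (ℝ × ℝ)}
    (hF : F ∈ ZD a b) : E1 n F ≤ b - a := by
  have h1 : E1 n F ≤ hausdorffDist F (curve (fun _ => a) (fun _ => a)) :=
    csInf_le (bddBelow_set n F) ⟨_, _, isM_const hn a, isM_const hn a, rfl⟩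
  refine h1.trans ?_
  rw [curve_const]
  obtain ⟨hsub, hcomp, hconn⟩ := hF
  have hdist : ∀ p ∈ F, dist p (a, a) ≤ b - a := by
    intro p hp
    obtain ⟨h1, h2⟩ := hsub hp
    rw [Prod.dist_eq, Real.dist_eq, Real.dist_eq]
    refine max_le ?_ ?_
    · rw [abs_le]; constructor <;> [linarith [h1.1, h1.2]; linarith [h1.1, h1.2]]
    · rw [abs_le]; constructor <;> [linarith [h2.1, h2.2]; linarith [h2.1, h2.2]]
  refine hausdorffDist_le_of_mem_dist (by linarith) ?_ ?_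
  · intro p hp
    exact ⟨(a, a), rfl, hdist p hp⟩
  · intro q hq
    obtain ⟨p, hp⟩ := hconn.nonempty
    refine ⟨p, hp, ?_⟩
    rw [mem_singleton_iff] at hq
    rw [hq, dist_comm]
    exact hdist p hp

lemma bddAbove_E {n : ℕ} (hn : 1 ≤ n) {a b : ℝ} (hab : a < b) :
    BddAbove (E1 n '' ZD a b) := by
  refine ⟨b - a, ?_⟩
  rintro r ⟨F, hF, rfl⟩
  exact E1_le_width hn hab hF

lemma ZD_nonempty {a b : ℝ} (hab : a < b) : (ZD a b).Nonempty :=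
  ⟨{(a, a)}, by
    rintro p hp
    rw [mem_singleton_iff] at hp
    subst hp
    exact ⟨⟨le_rfl, hab.le⟩, ⟨le_rfl, hab.le⟩⟩, isCompact_singleton, isConnected_singleton⟩

lemma upperE {a b : ℝ} (hab : a < b) {n q : ℕ} (hq : 1 ≤ q) (hn : q ^ 2 + 1 ≤ n) :
    E n a b ≤ (b - a) / (2 * q) := by
  refine csSup_le ((ZD_nonempty hab).image _) ?_
  rintro r ⟨F, ⟨hsub, hcomp, hconn⟩, rfl⟩
  obtain ⟨φ, ψ, hφ, hψ, ⟨k, hk, hk'⟩, ⟨l, hl, hl'⟩, hd⟩ := Q65.PMC.upper hab hq hsub hconn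
  refine (csInf_le (bddBelow_set n F) ⟨φ, ψ, ?_, ?_, rfl⟩).trans hd
  · exact ⟨hφ.continuousOn, k, hk.trans hn, hk'⟩
  · exact ⟨hψ.continuousOn, l, hl.trans hn, hl'⟩

lemma lowerE {a b : ℝ} (hab : a < b) {n p : ℕ} (hn1 : 1 ≤ n) (hp : 1 ≤ p)
    (hn : n + 3 ≤ 4 * p ^ 2) : (b - a) / (4 * p) ≤ E n a b := by
  have hp0 : (0:ℝ) < p := by exact_mod_cast hp
  set h : ℝ := (b - a) / (4 * p) with hh
  have hh0 : 0 < h := div_pos (by linarith) (by positivity)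
  have hb : a + 4 * p * h = b := by rw [hh]; field_simp; ring
  have hmem : Q65.PMC.comb a h p ∈ ZD a b := by
    refine ⟨?_, Q65.PMC.comb_compact a h p, Q65.PMC.comb_conn hh0 p⟩
    have := Q65.PMC.comb_sub (a := a) hh0 p
    rwa [hb] at this
  refine le_trans ?_ (le_csSup (bddAbove_E hn1 hab) ⟨_, hmem, rfl⟩)
  refine le_csInf ⟨_, _, _, isM_const hn1 a, isM_const hn1 a, rfl⟩ ?_
  rintro r ⟨φ, ψ, ⟨hφ, k, hk, t, ht0, htk, ht⟩, ⟨hψ, -⟩, rfl⟩
  by_contra hcon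
  push Not at hcon
  have h1 := Q65.PMC.lower hh0 hp hφ hψ (k := k)
    ⟨t, ht0, htk, fun i hi => ⟨(ht i hi).1.le, (ht i hi).2⟩⟩ hcon
  omega

lemma tendsto_ratio (c : ℝ) (d : ℝ) :
    Tendsto (fun n : ℕ => √(n:ℝ) / (2 * √((n:ℝ) + d) + c)) atTop (𝓝 (1/2)) := by
  have h1 : Tendsto (fun n : ℕ => √(1 + d / (n:ℝ))) atTop (𝓝 1) := by
    have h2 : Tendsto (fun n : ℕ => 1 + d / (n:ℝ)) atTop (𝓝 (1 + 0)) :=
      tendsto_const_nhds.add (tendsto_const_div_atTop_nhds_zero_nat d)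
    have h3 := h2.sqrt
    rw [add_zero, Real.sqrt_one] at h3
    exact h3
  have h4 : Tendsto (fun n : ℕ => c / √(n:ℝ)) atTop (𝓝 0) := by
    refine Tendsto.div_atTop tendsto_const_nhds ?_
    exact Real.tendsto_sqrt_atTop.comp tendsto_natCast_atTop_atTop
  have h5 : Tendsto (fun n : ℕ => 1 / (2 * √(1 + d / (n:ℝ)) + c / √(n:ℝ))) atTop
      (𝓝 (1 / (2 * 1 + 0))) := by
    refine Tendsto.div tendsto_const_nhds ((h1.const_mul 2).add h4) (by norm_num)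
  have e : (1:ℝ) / (2 * 1 + 0) = 1/2 := by norm_num
  rw [e] at h5
  refine h5.congr' ?_
  filter_upwards [eventually_gt_atTop 0] with n hn
  have hn0 : (0:ℝ) < n := by exact_mod_cast hn
  have hs : 0 < √(n:ℝ) := Real.sqrt_pos.mpr hn0
  have e1 : √((n:ℝ) + d) = √(n:ℝ) * √(1 + d / n) := by
    rw [← Real.sqrt_mul hn0.le]
    congr 1
    field_simp
  rw [e1]
  have e2 : 2 * (√(n:ℝ) * √(1 + d / n)) + c = √(n:ℝ) * (2 * √(1 + d / n) + c / √(n:ℝ)) := by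
    field_simp
  rw [e2, ← div_div, div_self hs.ne']

lemma tendsto_main {a b : ℝ} (hab : a < b) :
    Tendsto (fun n : ℕ => √(n:ℝ) * E n a b / (b - a)) atTop (𝓝 (1/2)) := by
  have hba : 0 < b - a := by linarith
  refine tendsto_of_tendsto_of_tendsto_of_le_of_le' (tendsto_ratio 4 3) (tendsto_ratio (-2) (-1))
    ?_ ?_
  · filter_upwards [eventually_ge_atTop 1] with n hn
    set p : ℕ := ⌈√(((n:ℝ) + 3) / 4)⌉₊ with hp
    have hn0 : (1:ℝ) ≤ n := by exact_mod_cast hn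
    have hpos : 0 < √(((n:ℝ) + 3) / 4) := Real.sqrt_pos.mpr (by linarith)
    have hp1 : 1 ≤ p := Nat.one_le_iff_ne_zero.mpr (Nat.ceil_pos.mpr hpos).ne'
    have hp0 : (0:ℝ) < p := by exact_mod_cast hp1
    have hp2 : √(((n:ℝ) + 3) / 4) ≤ p := Nat.le_ceil _
    have hp3 : (p:ℝ) < √(((n:ℝ) + 3) / 4) + 1 := Nat.ceil_lt_add_one hpos.le
    have hsq : √(((n:ℝ) + 3) / 4) = √((n:ℝ) + 3) / 2 := by
      rw [Real.sqrt_div (by linarith)]
      congr 1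
      rw [show (4:ℝ) = 2 ^ 2 by norm_num, Real.sqrt_sq (by norm_num)]
    have h4 : (n:ℝ) + 3 ≤ 4 * (p:ℝ) ^ 2 := by
      have := Real.sq_sqrt (show (0:ℝ) ≤ ((n:ℝ) + 3) / 4 by linarith)
      nlinarith
    have h5 : n + 3 ≤ 4 * p ^ 2 := by exact_mod_cast h4
    have h6 := lowerE hab hn hp1 h5
    have h7 : √(n:ℝ) / (4 * p) ≤ √(n:ℝ) * E n a b / (b - a) := by
      rw [le_div_iff₀ hba]
      calc √(n:ℝ) / (4 * p) * (b - a) = √(n:ℝ) * ((b - a) / (4 * p)) := by ring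
        _ ≤ _ := mul_le_mul_of_nonneg_left h6 (Real.sqrt_nonneg _)
    refine le_trans ?_ h7
    refine div_le_div_of_nonneg_left (Real.sqrt_nonneg _) (by positivity) ?_
    rw [hsq] at hp3
    linarith
  · filter_upwards [eventually_ge_atTop 5] with n hn
    set q : ℕ := Nat.sqrt (n - 1) with hq
    have hn0 : (5:ℝ) ≤ n := by exact_mod_cast hn
    have hq1 : 1 ≤ q := by
      rw [hq, Nat.le_sqrt]; omega
    have hq0 : (0:ℝ) < q := by exact_mod_cast hq1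
    have hq2 : q ^ 2 + 1 ≤ n := by
      have := Nat.sqrt_le' (n - 1)
      rw [← hq] at this
      omega
    have h6 := upperE hab hq1 hq2
    have h7 : √(n:ℝ) * E n a b / (b - a) ≤ √(n:ℝ) / (2 * q) := by
      rw [div_le_iff₀ hba]
      calc √(n:ℝ) * E n a b ≤ √(n:ℝ) * ((b - a) / (2 * q)) :=
            mul_le_mul_of_nonneg_left h6 (Real.sqrt_nonneg _)
        _ = _ := by ring
    refine h7.trans ?_
    have h8 : √((n:ℝ) + -1) < q + 1 := by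
      rw [Real.sqrt_lt' (by positivity)]
      have := Nat.lt_succ_sqrt' (n - 1)
      rw [← hq] at this
      have h9 : ((n - 1 : ℕ) : ℝ) < ((q.succ : ℕ) : ℝ) ^ 2 := by exact_mod_cast this
      rw [Nat.cast_sub (by omega)] at h9
      push_cast at h9
      linarith
    have h10 : (2:ℝ) ≤ √((n:ℝ) + -1) := by
      rw [show (2:ℝ) = √(2 ^ 2) by rw [Real.sqrt_sq (by norm_num)]]
      exact Real.sqrt_le_sqrt (by linarith)
    refine div_le_div_of_nonneg_left (Real.sqrt_nonneg _) (by linarith) ?_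
    linarith

/-- **`c₅ = 1/2`**, with explicit two-sided bounds for `E(M_n²; Z_D)`. -/
theorem result (a b : ℝ) (hab : a < b) :
    (∀ n : ℕ, 1 ≤ n → BddAbove (E1 n '' ZD a b)) ∧
    (∀ n q : ℕ, 1 ≤ q → q ^ 2 + 1 ≤ n → E n a b ≤ (b - a) / (2 * q)) ∧
    (∀ n p : ℕ, 1 ≤ n → 1 ≤ p → n + 3 ≤ 4 * p ^ 2 → (b - a) / (4 * p) ≤ E n a b) ∧
    Tendsto (fun n : ℕ => √(n:ℝ) * E n a b / (b - a)) atTop (𝓝 (1/2)) ∧
    limsup (fun n : ℕ => √(n:ℝ) * E n a b / (b - a)) atTop = 1/2 :=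
  ⟨fun _ hn => bddAbove_E hn hab, fun _ _ hq hn => upperE hab hq hn,
    fun _ _ hn hp h => lowerE hab hn hp h, tendsto_main hab, (tendsto_main hab).limsup_eq⟩

end Pool.Agent.Results.MP_cc6bdf_an.PiecewiseMonotoneCurves
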